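import Pool.Agent.Q218.HB.Stm

/-!
# Project HB, job SHI: the product measure is invariant under translations of the sites
-/

set_option autoImplicit false

open MeasureTheory

namespace Pool.Agent.Q65.HB

open Pool.Agent.Q218.HB

theorem shi : S_SHI := by
  intro Λ _ _ ν _ f a
  have h := (measurePreserving_piCongrLeft (fun _ : Λ => ν) (Equiv.addRight (-a))).integral_comp' f
  unfold iid
  rw [← h]
  congr 1
  funext V
  congr 1
  funext v
  have : v = (Equiv.addRight (-a)) (v + a) := by simp
  rw [MeasurableEquiv.coe_piCongrLeft]
  conv_rhs => rw [this]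
  rw [Equiv.piCongrLeft_apply_apply]

end Pool.Agent.Q65.HB
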