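import Pool.Agent.Q218.HB.Stm

/-!
# Project HB, job TRA: covariance of the resolvent under translations
-/

set_option autoImplicit false

open Matrix

namespace Pool.Agent.Q65.HB

open Pool.Agent.Q218.HB

theorem tra : S_TRA := by
  intro Λ _ _ _ h V z hh a x y
  have e : (Hm h (fun v => V (v + a)) - z • (1 : Matrix Λ Λ ℂ)) =
      (Hm h V - z • (1 : Matrix Λ Λ ℂ)).submatrix (Equiv.addRight a) (Equiv.addRight a) := by
    ext p q
    simp only [Matrix.sub_apply, Matrix.submatrix_apply, Hm, Equiv.coe_addRight, hh,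
      Matrix.smul_apply, Matrix.one_apply, add_left_inj]
  unfold G
  rw [e, Matrix.inv_submatrix_equiv]
  rfl

end Pool.Agent.Q65.HB
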