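import Pool.Agent.Q218.HB.Stm

/-!
# Project HB, job UPD: resolvent identity for the change of the potential at one site
-/

set_option autoImplicit false

open Matrix

namespace Pool.Agent.Q65.HB

open Pool.Agent.Q218.HB

theorem upd : S_INV → S_UPD := by
  intro hinv Λ _ _ h V z hs hz v
  have h1 := hinv Λ h V z hs hz
  have h2 := hinv Λ h (up V v) z hs hz
  set A : Matrix Λ Λ ℂ := Hm h V - z • (1 : Matrix Λ Λ ℂ) with hA
  set A' : Matrix Λ Λ ℂ := Hm h (up V v) - z • (1 : Matrix Λ Λ ℂ) with hA'
  have hd : A - A' = Matrix.single v v (V v : ℂ) := by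
    ext x y
    simp only [hA, hA', Matrix.sub_apply, Hm, up, Matrix.single_apply]
    by_cases hxy : x = y
    · subst hxy
      by_cases hx : v = x
      · subst hx
        simp
      · have hx' : x ≠ v := fun e => hx e.symm
        simp [hx, hx']
    · have : ¬ (v = x ∧ v = y) := fun e => hxy (e.1.symm.trans e.2)
      simp [hxy, this]
  have e1 : G h (up V v) z - G h V z = G h (up V v) z * Matrix.single v v (V v : ℂ) * G h V z := by
    rw [← hd, Matrix.mul_sub, Matrix.sub_mul, Matrix.mul_assoc, h1.1, h2.2.1, Matrix.mul_one,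
      Matrix.one_mul]
  have e2 : G h (up V v) z - G h V z = G h V z * Matrix.single v v (V v : ℂ) * G h (up V v) z := by
    rw [← hd, Matrix.mul_sub, Matrix.sub_mul, Matrix.mul_assoc (G h V z) A', h2.1, h1.2.1,
      Matrix.mul_one, Matrix.one_mul]
  have key : ∀ (M N : Matrix Λ Λ ℂ) (a b : Λ),
      (M * Matrix.single v v (V v : ℂ) * N) a b = (V v : ℂ) * M a v * N v b := by
    intro M N a b
    rw [Matrix.mul_apply, Finset.sum_eq_single v]
    · rw [Matrix.mul_single_apply_same]
      ring
    · intro c _ hc
      rw [Matrix.mul_single_apply_of_ne _ _ _ _ _ hc, zero_mul]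
    · intro hv
      exact absurd (Finset.mem_univ v) hv
  intro a b
  constructor
  · have := congrFun (congrFun e1 a) b
    rw [key, Matrix.sub_apply] at this
    rw [← this]
    ring
  · have := congrFun (congrFun e2 a) b
    rw [key, Matrix.sub_apply] at this
    rw [← this]
    ring

end Pool.Agent.Q65.HB
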